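import Pool.Agent.Helper45.CF.GoalsA

/-!
Project CF (MP_d97caa_an), packet HOC.
-/

set_option autoImplicit false

open scoped ComplexOrder ZeroAtInfty Topology ComplexConjugate NNReal

namespace Pool.Agent.Helper22.CF.HOC

open Pool.Agent.Helper45.CF

theorem t : S_HOC := by
  intro Z A B _ _ _ _ h hh f
  have h1 : Continuous (fun p : A × unitInterval => h p.2 p.1) := by
    refine continuous_prod_of_continuous_lipschitzWith _ 1 (fun a => hh a) (fun t => ?_)
    refine LipschitzWith.of_dist_le_mul fun x y => ?_
    rw [NNReal.coe_one, one_mul, dist_eq_norm, dist_eq_norm, ← map_sub]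
    exact NonUnitalStarAlgHom.norm_apply_le (h t) (x - y)
  refine ContinuousMap.continuous_of_continuous_uncurry _ ?_
  have h2 : Continuous (fun p : unitInterval × Z => (f p.2, p.1)) :=
    (f.continuous.comp continuous_snd).prodMk continuous_fst
  exact h1.comp h2

end Pool.Agent.Helper22.CF.HOC
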